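import Pool.Agent.P.MP_b67dab_lc.Basic

namespace Pool.Agent.P.MP_b67dab_lc

/-- A represented space: a set with a partial surjection from Baire space, given by its graph. -/
structure Rep where
  carrier : Type
  names : (ℕ → ℕ) → carrier → Prop
  unique : ∀ p x y, names p x → names p y → x = y
  surj : ∀ x, ∃ p, names p x

/-- A problem is a partial multivalued map; its instances are the `x` with `f x` nonempty. -/
def Problem (X Y : Rep) : Type := X.carrier → Set Y.carrier

/-- `F` sends every name of an instance `x` of `f` to a name of some element of `f x`. -/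
def Realizes {X Y : Rep} (f : Problem X Y) (F : (ℕ → ℕ) →. (ℕ → ℕ)) : Prop :=
  ∀ p x, X.names p x → (f x).Nonempty → ∃ q ∈ F p, ∃ y ∈ f x, Y.names q y

/-- Computable partial maps on Baire space: `F p` is the supremum of `h` on the finite prefixes
of `p`, for a computable monotone word function `h`. -/
def ComputableMap (F : (ℕ → ℕ) →. (ℕ → ℕ)) : Prop :=
  ∃ h : List ℕ → List ℕ, Computable h ∧ (∀ u v, u <+: v → h u <+: h v) ∧
    ∀ p, ∀ q ∈ F p, (∀ m, ∃ k, h ((List.range m).map p) = (List.range k).map q) ∧
      ∀ k, ∃ m, k ≤ (h ((List.range m).map p)).length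

/-- The interleaving pairing on Baire space. -/
def interleave (p q : ℕ → ℕ) : ℕ → ℕ := fun n => if n % 2 = 0 then p (n / 2) else q (n / 2)

/-- Weihrauch reducibility. -/
def WLe {X Y U V : Rep} (f : Problem X Y) (g : Problem U V) : Prop :=
  ∃ H K : (ℕ → ℕ) →. (ℕ → ℕ), ComputableMap H ∧ ComputableMap K ∧
    ∀ G, Realizes g G →
      Realizes f fun p => (K p).bind fun r => (G r).bind fun s => H (interleave p s)

/-- Composition of multivalued maps; `x` is an instance iff it is an instance of `g` and
every solution of it is an instance of `f`. -/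
def comp {X Y Z : Rep} (f : Problem Y Z) (g : Problem X Y) : Problem X Z :=
  fun x => {z | (∀ y ∈ g x, (f y).Nonempty) ∧ ∃ y ∈ g x, z ∈ f y}

/-- Closed subsets of `ℕ → α` with negative information. -/
def closedRep (α : Type) [TopologicalSpace α] [Encodable α] : Rep where
  carrier := TopologicalSpace.Closeds (ℕ → α)
  names p A := (A : Set (ℕ → α))ᶜ = ⋃ σ ∈ {σ : List α | ∃ n, p n = Encodable.encode σ + 1},
    {x | (List.range σ.length).map x = σ}
  unique := closed_names_unique
  surj := closed_names_surj

/-- Baire space, named by the identity. -/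
def baireRep : Rep where
  carrier := ℕ → ℕ
  names p x := p = x
  unique _ _ _ h h' := h.symm.trans h'
  surj x := ⟨x, rfl⟩

/-- Sequences of pairs (flag, point of Cantor space). -/
def listRep : Rep where
  carrier := ℕ → Bool × (ℕ → Bool)
  names p L := ∀ i, p (Nat.pair i 0) = (L i).1.toNat ∧
    ∀ j, p (Nat.pair i (j + 1)) = ((L i).2 j).toNat
  unique := list_names_unique
  surj := list_names_surj

/-- Unique choice on Baire space. -/
def uniqueChoice : Problem (closedRep ℕ) baireRep :=
  fun (A : TopologicalSpace.Closeds (ℕ → ℕ)) => {x : ℕ → ℕ | (A : Set (ℕ → ℕ)) = {x}}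

/-- Listing a countable closed subset of Cantor space. -/
def listing : Problem (closedRep Bool) listRep :=
  fun (A : TopologicalSpace.Closeds (ℕ → Bool)) => {L : ℕ → Bool × (ℕ → Bool) |
    (A : Set (ℕ → Bool)).Countable ∧
      (A : Set (ℕ → Bool)) = {x | ∃ i, (L i).1 = true ∧ (L i).2 = x}}

end Pool.Agent.P.MP_b67dab_lc
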