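import Mathlib

namespace Pool.Agent.P.MP_b67dab_lc

open Set

theorem range_map_eq_iff {α : Type} (x y : ℕ → α) (n : ℕ) :
    (List.range n).map x = (List.range n).map y ↔ ∀ i < n, x i = y i := by
  rw [List.map_inj_left]
  simp

/-- Every point of an open subset of a sequence space has a basic cylinder inside the set. -/
theorem exists_agree_of_isOpen {α : Type} [TopologicalSpace α] {U : Set (ℕ → α)}
    (hU : IsOpen U) {x : ℕ → α} (hx : x ∈ U) : ∃ n, ∀ y : ℕ → α, (∀ i < n, y i = x i) → y ∈ U := by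
  obtain ⟨I, u, hu, hI⟩ := isOpen_pi_iff.1 hU x hx
  refine ⟨I.sup id + 1, fun y hy => hI fun i hi => ?_⟩
  have : i ≤ I.sup id := Finset.le_sup (f := id) hi
  rw [hy i (by omega)]
  exact (hu i hi).2

theorem closed_names_unique {α : Type} [TopologicalSpace α] [Encodable α] (p : ℕ → ℕ)
    (A B : TopologicalSpace.Closeds (ℕ → α))
    (hA : (A : Set (ℕ → α))ᶜ = ⋃ σ ∈ {σ : List α | ∃ n, p n = Encodable.encode σ + 1},
      {x | (List.range σ.length).map x = σ})
    (hB : (B : Set (ℕ → α))ᶜ = ⋃ σ ∈ {σ : List α | ∃ n, p n = Encodable.encode σ + 1},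
      {x | (List.range σ.length).map x = σ}) : A = B := by
  apply TopologicalSpace.Closeds.ext
  exact compl_injective (hA.trans hB.symm)

theorem closed_names_surj {α : Type} [TopologicalSpace α] [Encodable α]
    (A : TopologicalSpace.Closeds (ℕ → α)) :
    ∃ p : ℕ → ℕ, (A : Set (ℕ → α))ᶜ = ⋃ σ ∈ {σ : List α | ∃ n, p n = Encodable.encode σ + 1},
      {x | (List.range σ.length).map x = σ} := by
  classical
  refine ⟨fun n => if ∃ σ : List α, n = Encodable.encode σ ∧
      ∀ x : ℕ → α, (List.range σ.length).map x = σ → x ∉ (A : Set (ℕ → α)) then n + 1 else 0, ?_⟩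
  ext x
  simp only [mem_compl_iff, mem_ofPred_eq, mem_iUnion, exists_prop]
  constructor
  · intro hx
    obtain ⟨n, hn⟩ := exists_agree_of_isOpen A.isClosed.isOpen_compl hx
    refine ⟨(List.range n).map x, ⟨Encodable.encode ((List.range n).map x), ?_⟩, by simp⟩
    rw [if_pos]
    refine ⟨_, rfl, fun y hy => hn y ?_⟩
    simp only [List.length_map, List.length_range] at hy
    exact (range_map_eq_iff _ _ _).1 hy
  · rintro ⟨σ, ⟨n, hn⟩, hx⟩
    split_ifs at hn with h
    obtain ⟨τ, h1, h2⟩ := h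
    have : σ = τ := Encodable.encode_injective (by omega)
    subst this
    exact h2 x hx

theorem list_names_unique (p : ℕ → ℕ) (L M : ℕ → Bool × (ℕ → Bool))
    (hL : ∀ i, p (Nat.pair i 0) = (L i).1.toNat ∧ ∀ j, p (Nat.pair i (j + 1)) = ((L i).2 j).toNat)
    (hM : ∀ i, p (Nat.pair i 0) = (M i).1.toNat ∧ ∀ j, p (Nat.pair i (j + 1)) = ((M i).2 j).toNat) :
    L = M := by
  have hinj : ∀ a b : Bool, a.toNat = b.toNat → a = b := by decide
  funext i
  refine Prod.ext (hinj _ _ ((hL i).1.symm.trans (hM i).1)) ?_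
  funext j
  exact hinj _ _ (((hL i).2 j).symm.trans ((hM i).2 j))

theorem list_names_surj (L : ℕ → Bool × (ℕ → Bool)) : ∃ p : ℕ → ℕ,
    ∀ i, p (Nat.pair i 0) = (L i).1.toNat ∧ ∀ j, p (Nat.pair i (j + 1)) = ((L i).2 j).toNat := by
  refine ⟨fun n => if n.unpair.2 = 0 then (L n.unpair.1).1.toNat
    else ((L n.unpair.1).2 (n.unpair.2 - 1)).toNat, fun i => ⟨by simp, fun j => by simp⟩⟩

end Pool.Agent.P.MP_b67dab_lc
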