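import Pool.Agent.P.MP_b67dab_lc.Basic

namespace Pool.Agent.P.MP_b67dab_lc

open Set

/-- Agreement of two sequences below `n`. -/
def Ag {α : Type} (n : ℕ) (x y : ℕ → α) : Prop := ∀ i < n, x i = y i

theorem Ag.refl {α : Type} (n : ℕ) (x : ℕ → α) : Ag n x x := fun _ _ => rfl
theorem Ag.symm {α : Type} {n : ℕ} {x y : ℕ → α} (h : Ag n x y) : Ag n y x :=
  fun i hi => (h i hi).symm
theorem Ag.trans {α : Type} {n : ℕ} {x y z : ℕ → α} (h : Ag n x y) (h' : Ag n y z) : Ag n x z :=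
  fun i hi => (h i hi).trans (h' i hi)
theorem Ag.mono {α : Type} {m n : ℕ} {x y : ℕ → α} (h : Ag n x y) (hm : m ≤ n) : Ag m x y :=
  fun i hi => h i (lt_of_lt_of_le hi hm)

/-- The fan theorem (compactness of Cantor space). -/
theorem fan (Q : ℕ → (ℕ → Bool) → Prop) (mono : ∀ m m' x, m ≤ m' → Q m x → Q m' x)
    (h : ∀ x, ∃ m, ∀ x', Ag m x x' → Q m x') : ∃ m, ∀ x, Q m x := by
  choose m hm using h
  have hopen : ∀ x : ℕ → Bool, {x' | Ag (m x) x x'} ∈ nhds x := by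
    intro x
    have : {x' : ℕ → Bool | Ag (m x) x x'} = ⋂ i ∈ Finset.range (m x), {x' | x' i = x i} := by
      ext x'
      simp only [Ag, mem_ofPred_eq, Finset.mem_range, mem_iInter]
      exact ⟨fun h i hi => (h i hi).symm, fun h i hi => (h i hi).symm⟩
    rw [this]
    refine (Filter.biInter_finset_mem _).2 fun i _ => ?_
    exact (continuous_apply i).continuousAt.preimage_mem_nhds
      (t := {x i}) ((isOpen_discrete _).mem_nhds rfl)
  obtain ⟨t, -, ht⟩ := isCompact_univ.elim_nhds_subcover (fun x => {x' | Ag (m x) x x'})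
    (fun x _ => hopen x)
  refine ⟨t.sup m, fun x => ?_⟩
  obtain ⟨y, hy, hx⟩ := mem_iUnion₂.1 (ht (mem_univ x))
  exact mono _ _ _ (Finset.le_sup hy) (hm y x hx)

/-- A uniform modulus for finitely many requirements. -/
theorem exists_unif (Q : ℕ → ℕ → Prop) (mono : ∀ j m m', m ≤ m' → Q j m → Q j m') (N : ℕ)
    (h : ∀ j < N, ∃ m, Q j m) : ∃ m, ∀ j < N, Q j m := by
  induction N with
  | zero => exact ⟨0, by simp⟩
  | succ N ih =>
    obtain ⟨m, hm⟩ := ih fun j hj => h j (by omega)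
    obtain ⟨m', hm'⟩ := h N (by omega)
    refine ⟨max m m', fun j hj => ?_⟩
    rcases Nat.lt_succ_iff_lt_or_eq.1 hj with hj | rfl
    · exact mono _ _ _ (le_max_left _ _) (hm j hj)
    · exact mono _ _ _ (le_max_right _ _) hm'

/-- Open subsets of Baire space. -/
def IsOp (O : Set (ℕ → ℕ)) : Prop := ∀ p ∈ O, ∃ m, ∀ p', Ag m p p' → p' ∈ O

/-- Projection along Cantor space of countably many conditions, open in the first and closed in
the second variable, is a countable intersection of open sets. -/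
theorem proj_gdelta (U : ℕ → (ℕ → ℕ) → (ℕ → Bool) → Prop)
    (hop : ∀ j p L, U j p L → ∃ m, ∀ p', Ag m p p' → U j p' L)
    (hcl : ∀ j p L, ¬ U j p L → ∃ m, ∀ L', Ag m L L' → ¬ U j p L') :
    ∃ O : ℕ → Set (ℕ → ℕ), (∀ N, IsOp (O N)) ∧ ∀ p, (∃ L, ∀ j, U j p L) ↔ ∀ N, p ∈ O N := by
  refine ⟨fun N => {p | ∃ L, ∀ j < N, U j p L}, ?_, ?_⟩
  · rintro N p ⟨L, hL⟩
    obtain ⟨m, hm⟩ := exists_unif (fun j m => ∀ p', Ag m p p' → U j p' L)
      (fun j m m' hm h p' hp => h p' (hp.mono hm)) N (fun j hj => hop j p L (hL j hj))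
    exact ⟨m, fun p' hp => ⟨L, fun j hj => hm j hj p' hp⟩⟩
  · intro p
    refine ⟨fun ⟨L, hL⟩ N => ⟨L, fun j _ => hL j⟩, fun h => ?_⟩
    by_contra hne
    push Not at hne
    obtain ⟨m, hm⟩ := fan (fun m L => ∃ j < m, ¬ U j p L)
      (fun m m' x hm ⟨j, hj, h⟩ => ⟨j, by omega, h⟩) (fun L => by
        obtain ⟨j, hj⟩ := hne L
        obtain ⟨m, hm⟩ := hcl j p L hj
        exact ⟨max m (j + 1), fun L' hL => ⟨j, by omega, hm L' (hL.mono (le_max_left _ _))⟩⟩)
    obtain ⟨L, hL⟩ := h m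
    obtain ⟨j, hj, h'⟩ := hm L
    exact h' (hL j hj)

/-- Existence of generic sequences. -/
theorem generic {E : Type} (Z : Set E) (e : E) (he : e ∈ Z) (D : ℕ → (ℕ → E) → ℕ → Prop)
    (hinv : ∀ n L L' k, Ag k L L' → D n L k → D n L' k)
    (hD : ∀ n L k, (∀ i, L i ∈ Z) → ∃ L' k', k ≤ k' ∧ (∀ i, L' i ∈ Z) ∧ Ag k L L' ∧ D n L' k') :
    ∃ L : ℕ → E, (∀ i, L i ∈ Z) ∧ ∀ n, ∃ k, D n L k := by
  choose! f g h1 h2 h3 h4 using hD
  let s : ℕ → (ℕ → E) × ℕ := fun n => Nat.rec (fun _ => e, 0)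
    (fun n c => (f n c.1 (c.2 + 1), g n c.1 (c.2 + 1))) n
  have hs : ∀ n, s (n + 1) = (f n (s n).1 ((s n).2 + 1), g n (s n).1 ((s n).2 + 1)) :=
    fun n => rfl
  have hZ : ∀ n i, (s n).1 i ∈ Z := by
    intro n
    induction n with
    | zero => exact fun _ => he
    | succ n ih => rw [hs]; exact h2 _ _ _ ih
  have hlt : ∀ n, (s n).2 + 1 ≤ (s (n + 1)).2 := fun n => by rw [hs]; exact h1 _ _ _ (hZ n)
  have hag : ∀ n, Ag ((s n).2 + 1) (s n).1 (s (n + 1)).1 := fun n => by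
    rw [hs]; exact h3 _ _ _ (hZ n)
  have hle : ∀ n, n ≤ (s n).2 := by
    intro n
    induction n with
    | zero => exact Nat.zero_le _
    | succ n ih => have := hlt n; omega
  have hag2 : ∀ n d, (s n).2 ≤ (s (n + d)).2 ∧ Ag ((s n).2 + 1) (s n).1 (s (n + d)).1 := by
    intro n d
    induction d with
    | zero => exact ⟨le_rfl, Ag.refl _ _⟩
    | succ d ih =>
      have := hlt (n + d)
      exact ⟨by rw [← add_assoc]; omega, ih.2.trans ((hag (n + d)).mono (by omega))⟩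
  refine ⟨fun i => (s i).1 i, fun i => hZ i i, fun n => ⟨(s (n + 1)).2, ?_⟩⟩
  refine hinv n (s (n + 1)).1 _ _ (fun i hi => ?_) (by rw [hs]; exact h4 _ _ _ (hZ n))
  rcases le_total i (n + 1) with h | h
  · obtain ⟨d, hd⟩ := Nat.exists_eq_add_of_le h
    rw [hd]
    exact ((hag2 i d).2 i (by have := hle i; omega)).symm
  · obtain ⟨d, hd⟩ := Nat.exists_eq_add_of_le h
    have := (hag2 (n + 1) d).2 i (by omega)
    rw [this, ← hd]

/-- The diagonal set. -/
def diag : Set (ℕ → ℕ) :=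
  {p | ∀ i : ℕ, ∃ j : ℕ, ∀ k : ℕ, p (Encodable.encode (i, j, (List.range k).map p)) ≠ 0}

theorem diag_not_sigma3 (O : ℕ → ℕ → Set (ℕ → ℕ)) (hO : ∀ i j, IsOp (O i j))
    (h : ∀ p, p ∈ diag ↔ ∃ i, ∀ j, p ∈ O i j) : False := by
  classical
  let q : ℕ → ℕ := fun n => if ∃ (i j : ℕ) (σ : List ℕ), n = Encodable.encode (i, j, σ) ∧
    ∀ p' : ℕ → ℕ, (List.range σ.length).map p' = σ → p' ∈ O i j then 0 else 1
  have key : ∀ i j, q ∈ O i j ↔ ∃ k : ℕ, q (Encodable.encode (i, j, (List.range k).map q)) = 0 := by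
    intro i j
    constructor
    · intro hq
      obtain ⟨m, hm⟩ := hO i j q hq
      refine ⟨m, if_pos ⟨i, j, _, rfl, fun p' hp => hm p' ?_⟩⟩
      simp only [List.length_map, List.length_range] at hp
      exact fun i hi => ((range_map_eq_iff _ _ _).1 hp i hi).symm
    · rintro ⟨k, hk⟩
      have : ∃ (i' j' : ℕ) (σ : List ℕ), Encodable.encode (i, j, (List.range k).map q) =
          Encodable.encode (i', j', σ) ∧
          ∀ p' : ℕ → ℕ, (List.range σ.length).map p' = σ → p' ∈ O i' j' := by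
        by_contra hc
        rw [show q (Encodable.encode (i, j, (List.range k).map q)) = 1 from if_neg hc] at hk
        exact one_ne_zero hk
      obtain ⟨i', j', σ, h1, h2⟩ := this
      have h3 := Encodable.encode_injective h1
      simp only [Prod.mk.injEq] at h3
      obtain ⟨rfl, rfl, rfl⟩ := h3
      exact h2 q (by simp)
  have h1 := h q
  simp only [key, diag, mem_ofPred_eq] at h1
  by_cases hq : ∃ i : ℕ, ∀ j : ℕ, ∃ k : ℕ, q (Encodable.encode (i, j, (List.range k).map q)) = 0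
  · obtain ⟨i, hi⟩ := hq
    obtain ⟨j, hj⟩ := h1.2 ⟨i, hi⟩ i
    obtain ⟨k, hk⟩ := hi j
    exact hj k hk
  · apply hq
    apply h1.1
    push Not at hq
    exact hq

end Pool.Agent.P.MP_b67dab_lc
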