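import Pool.Agent.P.MP_b67dab_lc.Core

namespace Pool.Agent.P.MP_b67dab_lc

open Set

/-- The `i`-th point coded in `s`. -/
def ent (s : ℕ → Bool) (i : ℕ) : ℕ → Bool := fun j => s (Nat.pair i (j + 1))

/-- Every flagged point of `s` lies in `S`. -/
def PL (S : Set (ℕ → Bool)) (s : ℕ → Bool) : Prop := ∀ i, s (Nat.pair i 0) = true → ent s i ∈ S

/-- The flagged points of `s` are exactly the elements of `S`. -/
def Lists (S : Set (ℕ → Bool)) (s : ℕ → Bool) : Prop :=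
  PL S s ∧ ∀ x ∈ S, ∃ i, s (Nat.pair i 0) = true ∧ ent s i = x

/-- The first `k` rows agree. -/
def EqUp (k : ℕ) (s t : ℕ → Bool) : Prop := ∀ i < k, ∀ j, s (Nat.pair i j) = t (Nat.pair i j)

theorem EqUp.ag {k : ℕ} {s t : ℕ → Bool} (h : EqUp k s t) : Ag k s t := by
  intro n hn
  have := h n.unpair.1 (lt_of_le_of_lt (Nat.unpair_left_le n) hn) n.unpair.2
  rwa [Nat.pair_unpair] at this

theorem EqUp.mono {k m : ℕ} {s t : ℕ → Bool} (h : EqUp k s t) (hm : m ≤ k) : EqUp m s t :=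
  fun i hi => h i (lt_of_lt_of_le hi hm)

/-- Flattening of rows. -/
def flat (R : ℕ → ℕ → Bool) : ℕ → Bool := fun n => R n.unpair.1 n.unpair.2

@[simp] theorem flat_pair (R : ℕ → ℕ → Bool) (i j : ℕ) : flat R (Nat.pair i j) = R i j := by
  simp [flat]

theorem ext_list {S : Set (ℕ → Bool)} (hS : S.Countable) {z : ℕ → Bool} (hz : PL S z) (k : ℕ) :
    ∃ s, Lists S s ∧ EqUp k z s := by
  rcases S.eq_empty_or_nonempty with rfl | hne
  · exact ⟨z, ⟨hz, by simp⟩, fun _ _ _ => rfl⟩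
  obtain ⟨e, he⟩ := hS.exists_eq_range hne
  refine ⟨flat fun i j => if i < k then z (Nat.pair i j) else
    (if j = 0 then true else e (i - k) (j - 1)), ⟨fun i hi => ?_, fun x hx => ?_⟩,
    fun i hi j => by simp [hi]⟩
  · by_cases h : i < k
    · have := hz i (by simpa [h] using hi)
      convert this using 1
      funext j
      simp [ent, h]
    · rw [he]
      exact ⟨i - k, funext fun j => by simp [ent, h]⟩
  · rw [he] at hx
    obtain ⟨i, rfl⟩ := hx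
    exact ⟨i + k, by simp, funext fun j => by simp [ent]⟩

theorem ent_ag {i m : ℕ} {z z' : ℕ → Bool} (h : Ag (Nat.pair i (m + 1)) z z') :
    z (Nat.pair i 0) = z' (Nat.pair i 0) ∧ Ag m (ent z i) (ent z' i) :=
  ⟨h _ (Nat.pair_lt_pair_right _ (by omega)),
    fun j hj => h _ (Nat.pair_lt_pair_right _ (by omega))⟩

theorem notPL_stable (T : ℕ → Set (ℕ → Bool) → Prop) (mono : ∀ m m' S', m ≤ m' → T m' S' → T m S')
    (S : Set (ℕ → Bool)) (hS : ∀ x ∉ S, ∃ m, ∀ S', T m S' → ∀ x', Ag m x x' → x' ∉ S')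
    (C : (ℕ → Bool) → Prop) (hC : ∀ z, ¬ C z → ∃ m, ∀ z', Ag m z z' → ¬ C z')
    (h : ¬ ∃ z, C z ∧ PL S z) : ∃ m, ∀ S', T m S' → ¬ ∃ z, C z ∧ PL S' z := by
  obtain ⟨m, hm⟩ := fan (fun m z => ∀ S', T m S' → ¬ (C z ∧ PL S' z))
    (fun m m' z hm h S' hT => h S' (mono _ _ _ hm hT)) (fun z => by
      by_cases hz : C z
      · have : ¬ PL S z := fun h' => h ⟨z, hz, h'⟩
        simp only [PL, not_forall] at this
        obtain ⟨i, hi, hx⟩ := this
        obtain ⟨m, hm⟩ := hS _ hx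
        refine ⟨max m (Nat.pair i (m + 1)), fun z' hz' S' hT h' => ?_⟩
        obtain ⟨h1, h2⟩ := ent_ag (hz'.mono (le_max_right _ _))
        exact hm S' (mono _ _ _ (le_max_left _ _) hT) _ h2 (h'.2 i (h1 ▸ hi))
      · obtain ⟨m, hm⟩ := hC z hz
        exact ⟨m, fun z' hz' S' _ h' => hm z' hz' h'.1⟩)
  exact ⟨m, fun S' hT ⟨z, hz⟩ => hm z S' hT hz⟩

theorem exists_code (n : ℕ) (t : ℕ → Bool) : ∃ c : ℕ, Ag n c.testBit t :=
  ⟨Nat.ofBits fun i : Fin n => t i, fun i hi => by rw [Nat.testBit_ofBits_lt _ _ hi]⟩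

theorem not_ag_stable {n : ℕ} {τ z : ℕ → Bool} (h : ¬ Ag n τ z) :
    ∃ m, ∀ z', Ag m z z' → ¬ Ag n τ z' :=
  ⟨n, fun _ hz h' => h (h'.trans hz.symm)⟩

section main

variable (A : (ℕ → ℕ) → Set (ℕ → Bool)) (B : (ℕ → ℕ) → (ℕ → Bool) → Set (ℕ → Bool))
  (D : Set (ℕ → ℕ))

/-- The pattern `c` of length `n` is consistent with `B p s`. -/
def Valid (p : ℕ → ℕ) (s : ℕ → Bool) (n c : ℕ) : Prop := ∃ z, Ag n c.testBit z ∧ PL (B p s) z

/-- The first `k` rows of `L` force validity. -/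
def Force (p : ℕ → ℕ) (L : ℕ → Bool) (k n c : ℕ) : Prop :=
  ∀ s, Lists (A p) s → EqUp k L s → Valid B p s n c

/-- The finite data of length `n` decide membership in `D`. -/
def Dec (p : ℕ → ℕ) (L : ℕ → Bool) (n c : ℕ) : Prop :=
  ∀ p' s' t', Lists (A p') s' → Lists (B p' s') t' → Ag n p p' → Ag n L s' → Ag n c.testBit t' →
    p' ∈ D

variable {A B D}

theorem invalid_open
    (hB : ∀ p s, Lists (A p) s → ∀ x ∉ B p s, ∃ m, ∀ p' s' x', Lists (A p') s' → Ag m p p' →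
      Ag m s s' → Ag m x x' → x' ∉ B p' s')
    {p : ℕ → ℕ} {s : ℕ → Bool} (hs : Lists (A p) s) {n c : ℕ} (h : ¬ Valid B p s n c) :
    ∃ m, ∀ p' s', Lists (A p') s' → Ag m p p' → Ag m s s' → ¬ Valid B p' s' n c := by
  obtain ⟨m, hm⟩ := notPL_stable
    (fun m S' => ∃ p' s', Lists (A p') s' ∧ Ag m p p' ∧ Ag m s s' ∧ S' = B p' s')
    (fun m m' S' hm ⟨p', s', h1, h2, h3, h4⟩ => ⟨p', s', h1, h2.mono hm, h3.mono hm, h4⟩)
    (B p s) (fun x hx => by
      obtain ⟨m, hm⟩ := hB p s hs x hx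
      refine ⟨m, ?_⟩
      rintro S' ⟨p', s', h1, h2, h3, rfl⟩ x' hx'
      exact hm p' s' x' h1 h2 h3 hx')
    (fun z => Ag n c.testBit z) (fun z hz => not_ag_stable hz) h
  exact ⟨m, fun p' s' h1 h2 h3 => hm _ ⟨p', s', h1, h2, h3, rfl⟩⟩

theorem sound (hAc : ∀ p, (A p).Countable) (hBc : ∀ p s, Lists (A p) s → (B p s).Countable)
    {p : ℕ → ℕ} {L : ℕ → Bool} {k n c : ℕ} (h1 : PL (A p) L) (h2 : Force A B p L k n c)
    (h3 : Dec A B D p L n c) : p ∈ D := by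
  obtain ⟨s, hs, hs'⟩ := ext_list (hAc p) h1 (max k n)
  obtain ⟨z, hz, hz'⟩ := h2 s hs (hs'.mono (le_max_left _ _))
  obtain ⟨t, ht, ht'⟩ := ext_list (hBc p s hs) hz' n
  exact h3 p s t hs ht (Ag.refl _ _) (hs'.mono (le_max_right _ _)).ag (hz.trans ht'.ag)

theorem complete (hAc : ∀ p, (A p).Countable) (hBc : ∀ p s, Lists (A p) s → (B p s).Countable)
    (hB : ∀ p s, Lists (A p) s → ∀ x ∉ B p s, ∃ m, ∀ p' s' x', Lists (A p') s' → Ag m p p' →
      Ag m s s' → Ag m x x' → x' ∉ B p' s')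
    (hD : ∀ p s t, Lists (A p) s → Lists (B p s) t → p ∈ D → ∃ m, ∀ p' s' t', Lists (A p') s' →
      Lists (B p' s') t' → Ag m p p' → Ag m s s' → Ag m t t' → p' ∈ D)
    {p : ℕ → ℕ} (hp : p ∈ D) :
    ∃ k n c L, PL (A p) L ∧ Force A B p L k n c ∧ Dec A B D p L n c := by
  -- an enumeration of a countable superset of `A p`
  obtain ⟨e, he⟩ : ∃ e : ℕ → ℕ → Bool, A p ⊆ range e := by
    obtain ⟨e, he⟩ := ((hAc p).insert (fun _ => false)).exists_eq_range (insert_nonempty _ _)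
    exact ⟨e, he ▸ subset_insert _ _⟩
  let Z : Set (ℕ → Bool) := {r | r 0 = true → (fun j => r (j + 1)) ∈ A p}
  have hZ : ∀ R : ℕ → ℕ → Bool, (∀ i, R i ∈ Z) ↔ PL (A p) (flat R) := by
    intro R
    refine forall_congr' fun i => ?_
    have : ent (flat R) i = fun j => R i (j + 1) := funext fun j => by simp [ent]
    simp [Z, this]
  have hEq : ∀ k (R R' : ℕ → ℕ → Bool), Ag k R R' ↔ EqUp k (flat R) (flat R') := by
    intro k R R'
    refine forall_congr' fun i => forall_congr' fun _ => ?_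
    simp [funext_iff]
  have hflat : ∀ s : ℕ → Bool, flat (fun i j => s (Nat.pair i j)) = s :=
    fun s => funext fun n => by simp [flat]
  obtain ⟨R, hR, hgen⟩ := generic Z (fun _ => false) (by simp [Z])
    (fun N R k => (e N ∈ A p → ∃ i < k, R i 0 = true ∧ (fun j => R i (j + 1)) = e N) ∧
      (Force A B p (flat R) k N.unpair.1 N.unpair.2 ∨
        ∀ s, Lists (A p) s → EqUp k (flat R) s → ¬ Valid B p s N.unpair.1 N.unpair.2))
    (by
      rintro N R R' k hag ⟨h1, h2⟩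
      have hE := (hEq k R R').1 hag
      refine ⟨fun h => ?_, ?_⟩
      · obtain ⟨i, hi, h3⟩ := h1 h
        exact ⟨i, hi, hag i hi ▸ h3⟩
      · rcases h2 with h2 | h2
        · exact Or.inl fun s hs hs' => h2 s hs fun i hi j => (hE i hi j).trans (hs' i hi j)
        · exact Or.inr fun s hs hs' => h2 s hs fun i hi j => (hE i hi j).trans (hs' i hi j))
    (by
      intro N R k hR
      obtain ⟨s, hs, hs'⟩ := ext_list (hAc p) ((hZ R).1 hR) k
      obtain ⟨k1, hk1, hk1'⟩ : ∃ k1, k ≤ k1 ∧ (e N ∈ A p →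
          ∃ i < k1, s (Nat.pair i 0) = true ∧ ent s i = e N) := by
        by_cases h : e N ∈ A p
        · obtain ⟨i, hi⟩ := hs.2 _ h
          exact ⟨max k (i + 1), le_max_left _ _, fun _ => ⟨i, by omega, hi⟩⟩
        · exact ⟨k, le_rfl, fun h' => absurd h' h⟩
      by_cases hF : Force A B p s k1 N.unpair.1 N.unpair.2
      · refine ⟨fun i j => s (Nat.pair i j), k1, hk1, (hZ _).2 (by rw [hflat]; exact hs.1),
          (hEq _ _ _).2 (by rw [hflat]; exact hs'), hk1', Or.inl (by rw [hflat]; exact hF)⟩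
      · simp only [Force, not_forall] at hF
        obtain ⟨s1, h1, h2, h3⟩ := hF
        obtain ⟨m, hm⟩ := invalid_open hB h1 h3
        refine ⟨fun i j => s1 (Nat.pair i j), max k1 m, by omega,
          (hZ _).2 (by rw [hflat]; exact h1.1), (hEq _ _ _).2 ?_, fun h => ?_, Or.inr ?_⟩
        · rw [hflat]
          exact fun i hi j => (hs' i hi j).trans (h2 i (by omega) j)
        · obtain ⟨i, hi, h4, h5⟩ := hk1' h
          refine ⟨i, by omega, (h2 i hi 0).symm.trans h4, ?_⟩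
          rw [← h5]
          exact funext fun j => (h2 i hi (j + 1)).symm
        · rw [hflat]
          exact fun s2 h4 h5 => hm p s2 h4 (Ag.refl _ _) (h5.mono (le_max_right _ _)).ag)
  have hs : Lists (A p) (flat R) := by
    refine ⟨(hZ R).1 hR, fun x hx => ?_⟩
    obtain ⟨N, rfl⟩ := he hx
    obtain ⟨k, hk, -⟩ := hgen N
    obtain ⟨i, -, h1, h2⟩ := hk hx
    exact ⟨i, by simpa using h1, h2 ▸ funext fun j => by simp [ent]⟩
  obtain ⟨t, ht, -⟩ := ext_list (hBc p _ hs) (z := fun _ => false) (by simp [PL]) 0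
  obtain ⟨m, hm⟩ := hD p _ t hs ht hp
  obtain ⟨c, hc⟩ := exists_code m t
  obtain ⟨k, -, hk⟩ := hgen (Nat.pair m c)
  simp only [Nat.unpair_pair] at hk
  refine ⟨k, m, c, flat R, hs.1, hk.resolve_right fun h => ?_, ?_⟩
  · exact h _ hs (fun _ _ _ => rfl) ⟨t, hc, ht.1⟩
  · exact fun p' s' t' h1 h2 h3 h4 h5 => hm p' s' t' h1 h2 h3 h4 (hc.symm.trans h5)

/-- The countably many conditions describing a forcing condition. -/
def Cond (A : (ℕ → ℕ) → Set (ℕ → Bool)) (B : (ℕ → ℕ) → (ℕ → Bool) → Set (ℕ → Bool))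
    (D : Set (ℕ → ℕ)) (k n c a b : ℕ) (p : ℕ → ℕ) (L : ℕ → Bool) : Prop :=
  (¬ (L (Nat.pair a 0) = true ∧ ∀ p' x', Ag b p p' → Ag b (ent L a) x' → x' ∉ A p')) ∧
  (¬ ((∀ i < k, ∀ j, Nat.pair i j < a → b.testBit (Nat.pair i j) = L (Nat.pair i j)) ∧
    (∃ z, (∀ i, k ≤ i → ∀ j, Nat.pair i j < a → b.testBit (Nat.pair i j) = z (Nat.pair i j)) ∧
      PL (A p) z) ∧
    ∀ p' s', Lists (A p') s' → Ag a p p' → Ag a b.testBit s' → ¬ Valid B p' s' n c)) ∧
  Dec A B D p L n c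

theorem cond_iff (hAc : ∀ p, (A p).Countable)
    (hA : ∀ p, ∀ x ∉ A p, ∃ m, ∀ p' x', Ag m p p' → Ag m x x' → x' ∉ A p')
    (hB : ∀ p s, Lists (A p) s → ∀ x ∉ B p s, ∃ m, ∀ p' s' x', Lists (A p') s' → Ag m p p' →
      Ag m s s' → Ag m x x' → x' ∉ B p' s')
    (k n c : ℕ) (p : ℕ → ℕ) (L : ℕ → Bool) :
    (PL (A p) L ∧ Force A B p L k n c ∧ Dec A B D p L n c) ↔ ∀ a b, Cond A B D k n c a b p L := by
  constructor
  · rintro ⟨h1, h2, h3⟩ a b
    refine ⟨fun h => h.2 p _ (Ag.refl _ _) (Ag.refl _ _) (h1 a h.1), ?_, h3⟩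
    rintro ⟨h4, ⟨z, h5, h6⟩, h7⟩
    have hw : PL (A p) (flat fun i j => if i < k then L (Nat.pair i j) else z (Nat.pair i j)) := by
      intro i hi
      by_cases h : i < k
      · have := h1 i (by simpa [h] using hi)
        convert this using 1
        funext j
        simp [ent, h]
      · have := h6 i (by simpa [h] using hi)
        convert this using 1
        funext j
        simp [ent, h]
    obtain ⟨s, hs, hs'⟩ := ext_list (hAc p) hw (max k a)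
    refine h7 p s hs (Ag.refl _ _) (Ag.trans ?_ (hs'.mono (le_max_right _ _)).ag)
      (h2 s hs fun i hi j => ?_)
    · intro N hN
      rw [← Nat.pair_unpair N] at hN ⊢
      by_cases h : N.unpair.1 < k
      · rw [flat_pair, if_pos h]
        exact h4 _ h _ hN
      · rw [flat_pair, if_neg h]
        exact h5 _ (by omega) _ hN
    · rw [← hs' i (by omega) j, flat_pair, if_pos hi]
  · intro h
    have h1 : PL (A p) L := by
      intro i hi
      by_contra hx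
      obtain ⟨m, hm⟩ := hA p _ hx
      exact (h i m).1 ⟨hi, hm⟩
    refine ⟨h1, fun s hs hs' => ?_, (h 0 0).2.2⟩
    by_contra hv
    obtain ⟨m, hm⟩ := invalid_open hB hs hv
    obtain ⟨d, hd⟩ := exists_code m s
    exact (h m d).2.1 ⟨fun i hi j hj => (hd _ hj).trans (hs' i hi j).symm,
      ⟨s, fun i _ j hj => hd _ hj, hs.1⟩,
      fun p' s' h1 h2 h3 => hm p' s' h1 h2 (hd.symm.trans h3)⟩

theorem cond_open
    (hA : ∀ p, ∀ x ∉ A p, ∃ m, ∀ p' x', Ag m p p' → Ag m x x' → x' ∉ A p')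
    (k n c a b : ℕ) (p : ℕ → ℕ) (L : ℕ → Bool) (h : Cond A B D k n c a b p L) :
    ∃ m, ∀ p', Ag m p p' → Cond A B D k n c a b p' L := by
  obtain ⟨h1, h2, h3⟩ := h
  have h2' : ∃ m, ∀ p1, Ag m p p1 → ¬ ((∀ i < k, ∀ j, Nat.pair i j < a →
      b.testBit (Nat.pair i j) = L (Nat.pair i j)) ∧
      (∃ z, (∀ i, k ≤ i → ∀ j, Nat.pair i j < a → b.testBit (Nat.pair i j) = z (Nat.pair i j)) ∧
        PL (A p1) z) ∧
      ∀ p' s', Lists (A p') s' → Ag a p1 p' → Ag a b.testBit s' → ¬ Valid B p' s' n c) := by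
    by_cases hz : ∃ z, (∀ i, k ≤ i → ∀ j, Nat.pair i j < a →
        b.testBit (Nat.pair i j) = z (Nat.pair i j)) ∧ PL (A p) z
    · exact ⟨a, fun p1 hp h => h2 ⟨h.1, hz, fun p' s' h4 h5 => h.2.2 p' s' h4 (hp.symm.trans h5)⟩⟩
    · obtain ⟨m, hm⟩ := notPL_stable (fun m S' => ∃ p', Ag m p p' ∧ S' = A p')
        (fun m m' S' hm ⟨p', h1, h2⟩ => ⟨p', h1.mono hm, h2⟩) (A p) (fun x hx => by
          obtain ⟨m, hm⟩ := hA p x hx
          refine ⟨m, ?_⟩
          rintro S' ⟨p', h1, rfl⟩ x' hx'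
          exact hm p' x' h1 hx') _
        (fun z hz => ⟨a, fun z' hz' h => hz fun i hi j hj => (h i hi j hj).trans (hz' _ hj).symm⟩)
        hz
      exact ⟨m, fun p1 hp h => hm _ ⟨p1, hp, rfl⟩ h.2.1⟩
  obtain ⟨m, hm⟩ := h2'
  refine ⟨max m (max b n), fun p1 hp => ⟨fun h => h1 ⟨h.1, fun p' x' h4 h5 => h.2 p' x' ?_ h5⟩,
    hm p1 (hp.mono (le_max_left _ _)), fun p' s' t' h4 h5 h6 => h3 p' s' t' h4 h5 ?_⟩⟩
  · exact (hp.mono (by omega)).symm.trans h4
  · exact (hp.mono (by omega)).trans h6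

theorem cond_closed (k n c a b : ℕ) (p : ℕ → ℕ) (L : ℕ → Bool) (h : ¬ Cond A B D k n c a b p L) :
    ∃ m, ∀ L', Ag m L L' → ¬ Cond A B D k n c a b p L' := by
  refine ⟨max (Nat.pair a (b + 1)) (max a n), fun L' hL h' => h ?_⟩
  obtain ⟨h1, h2, h3⟩ := h'
  obtain ⟨h4, h5⟩ := ent_ag (hL.mono (le_max_left _ _))
  refine ⟨fun h => h1 ⟨h4 ▸ h.1, fun p' x' h6 h7 => h.2 p' x' h6 (h5.trans h7)⟩,
    fun h => h2 ⟨fun i hi j hj => (h.1 i hi j hj).trans (hL _ (by omega)), h.2⟩,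
    fun p' s' t' h6 h7 h8 h9 => h3 p' s' t' h6 h7 h8 ((hL.mono (by omega)).symm.trans h9)⟩

/-- A set that is recognised continuously after two successive listings is a countable union of
countable intersections of open sets. -/
theorem sigma3 (hAc : ∀ p, (A p).Countable) (hBc : ∀ p s, Lists (A p) s → (B p s).Countable)
    (hA : ∀ p, ∀ x ∉ A p, ∃ m, ∀ p' x', Ag m p p' → Ag m x x' → x' ∉ A p')
    (hB : ∀ p s, Lists (A p) s → ∀ x ∉ B p s, ∃ m, ∀ p' s' x', Lists (A p') s' → Ag m p p' →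
      Ag m s s' → Ag m x x' → x' ∉ B p' s')
    (hD : ∀ p s t, Lists (A p) s → Lists (B p s) t → p ∈ D → ∃ m, ∀ p' s' t', Lists (A p') s' →
      Lists (B p' s') t' → Ag m p p' → Ag m s s' → Ag m t t' → p' ∈ D) :
    ∃ O : ℕ → ℕ → Set (ℕ → ℕ), (∀ i j, IsOp (O i j)) ∧ ∀ p, p ∈ D ↔ ∃ i, ∀ j, p ∈ O i j := by
  have key : ∀ i : ℕ, ∃ O : ℕ → Set (ℕ → ℕ), (∀ N, IsOp (O N)) ∧ ∀ p, (∃ L, ∀ j : ℕ,
      Cond A B D i.unpair.1 i.unpair.2.unpair.1 i.unpair.2.unpair.2 j.unpair.1 j.unpair.2 p L) ↔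
      ∀ N, p ∈ O N := fun i =>
    proj_gdelta _ (fun j p L => cond_open hA _ _ _ _ _ p L) (fun j p L => cond_closed _ _ _ _ _ p L)
  choose O hO hO' using key
  refine ⟨O, hO, fun p => ⟨fun hp => ?_, fun ⟨i, hi⟩ => ?_⟩⟩
  · obtain ⟨k, n, c, L, h⟩ := complete hAc hBc hB hD hp
    refine ⟨Nat.pair k (Nat.pair n c), (hO' _ p).1 ⟨L, fun j => ?_⟩⟩
    simp only [Nat.unpair_pair]
    exact (cond_iff hAc hA hB k n c p L).1 h _ _
  · obtain ⟨L, hL⟩ := (hO' i p).2 hi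
    obtain ⟨h1, h2, h3⟩ := (cond_iff (D := D) hAc hA hB _ _ _ p L).2 fun a b => by
      simpa only [Nat.unpair_pair] using hL (Nat.pair a b)
    exact sound hAc hBc h1 h2 h3

end main

end Pool.Agent.P.MP_b67dab_lc
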