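import Pool.Agent.P.MP_b67dab_lc.Forcing
import Pool.Agent.P.MP_b67dab_lc.Defs

namespace Pool.Agent.P.MP_b67dab_lc

open Set

/-- The name-level version of a problem. -/
def nm {X Y : Rep} (f : Problem X Y) (p : ℕ → ℕ) : Set (ℕ → ℕ) :=
  {q | ∃ x, X.names p x ∧ ∃ y ∈ f x, Y.names q y}

/-- Pointwise continuous reduction between name-level problems. -/
def PW (f g : (ℕ → ℕ) → Set (ℕ → ℕ)) : Prop :=
  ∃ (K : (ℕ → ℕ) → ℕ → ℕ) (H : (ℕ → ℕ) → (ℕ → ℕ) → ℕ → ℕ),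
    (∀ p, (f p).Nonempty → (g (K p)).Nonempty ∧ ∀ s ∈ g (K p), H p s ∈ f p) ∧
    (∀ p, (f p).Nonempty → ∀ n, ∃ m, ∀ p', (f p').Nonempty → Ag m p p' → Ag n (K p) (K p')) ∧
    (∀ p, (f p).Nonempty → ∀ s ∈ g (K p), ∀ n, ∃ m, ∀ p', (f p').Nonempty → ∀ s' ∈ g (K p'),
      Ag m p p' → Ag m s s' → Ag n (H p s) (H p' s'))

theorem PW.trans {f g h : (ℕ → ℕ) → Set (ℕ → ℕ)} (h1 : PW f g) (h2 : PW g h) : PW f h := by
  obtain ⟨K, H, a1, a2, a3⟩ := h1
  obtain ⟨K', H', b1, b2, b3⟩ := h2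
  refine ⟨fun p => K' (K p), fun p s => H p (H' (K p) s), fun p hp => ⟨(b1 _ (a1 p hp).1).1,
    fun s hs => (a1 p hp).2 _ ((b1 _ (a1 p hp).1).2 s hs)⟩, fun p hp n => ?_,
    fun p hp s hs n => ?_⟩
  · obtain ⟨m, hm⟩ := b2 _ (a1 p hp).1 n
    obtain ⟨m', hm'⟩ := a2 p hp m
    exact ⟨m', fun p' hp' h => hm _ (a1 p' hp').1 (hm' p' hp' h)⟩
  · obtain ⟨m1, hm1⟩ := a3 p hp _ ((b1 _ (a1 p hp).1).2 s hs) n
    obtain ⟨m2, hm2⟩ := b3 _ (a1 p hp).1 s hs m1
    obtain ⟨m3, hm3⟩ := a2 p hp m2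
    refine ⟨max m1 (max m2 m3), fun p' hp' s' hs' h h' => ?_⟩
    exact hm1 p' hp' _ ((b1 _ (a1 p' hp').1).2 s' hs') (h.mono (by omega))
      (hm2 _ (a1 p' hp').1 s' hs' (hm3 p' hp' (h.mono (by omega))) (h'.mono (by omega)))

theorem ComputableMap.cont {F : (ℕ → ℕ) →. (ℕ → ℕ)} (hF : ComputableMap F) (p q : ℕ → ℕ)
    (hq : q ∈ F p) (n : ℕ) : ∃ m, ∀ p', ∀ q' ∈ F p', Ag m p p' → Ag n q q' := by
  obtain ⟨h, -, -, hh⟩ := hF
  obtain ⟨m, hm⟩ := (hh p q hq).2 n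
  refine ⟨m, fun p' q' hq' hp => ?_⟩
  obtain ⟨k, hk⟩ := (hh p q hq).1 m
  obtain ⟨k', hk'⟩ := (hh p' q' hq').1 m
  have h1 : (List.range m).map p = (List.range m).map p' := (range_map_eq_iff _ _ _).2 hp
  rw [← h1, hk] at hk'
  have h2 : k = k' := by simpa using congrArg List.length hk'
  subst h2
  have h3 : n ≤ k := by simpa [hk] using hm
  exact Ag.mono ((range_map_eq_iff _ _ _).1 hk') h3

theorem pair_ag {m : ℕ} {p p' s s' : ℕ → ℕ} (h : Ag m p p') (h' : Ag m s s') :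
    Ag m (interleave p s) (interleave p' s') := by
  intro i hi
  simp only [interleave]
  rw [h _ (by omega), h' _ (by omega)]

theorem nm_nonempty {X Y : Rep} {f : Problem X Y} {p : ℕ → ℕ} :
    (nm f p).Nonempty ↔ ∃ x, X.names p x ∧ (f x).Nonempty := by
  constructor
  · rintro ⟨q, x, hx, y, hy, -⟩
    exact ⟨x, hx, y, hy⟩
  · rintro ⟨x, hx, y, hy⟩
    obtain ⟨q, hq⟩ := Y.surj y
    exact ⟨q, x, hx, y, hy, hq⟩

theorem realizes_iff {X Y : Rep} {f : Problem X Y} {F : (ℕ → ℕ) →. (ℕ → ℕ)} :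
    Realizes f F ↔ ∀ p, (nm f p).Nonempty → ∃ q ∈ F p, q ∈ nm f p := by
  constructor
  · intro h p hp
    obtain ⟨x, hx, hx'⟩ := nm_nonempty.1 hp
    obtain ⟨q, hq, y, hy, hy'⟩ := h p x hx hx'
    exact ⟨q, hq, x, hx, y, hy, hy'⟩
  · intro h p x hx hx'
    obtain ⟨q, hq, x', h1, y, hy, hy'⟩ := h p (nm_nonempty.2 ⟨x, hx, hx'⟩)
    obtain rfl := X.unique p x x' hx h1
    exact ⟨q, hq, y, hy, hy'⟩

theorem WLe.pw {X Y U V : Rep} {f : Problem X Y} {g : Problem U V} (h : WLe f g) :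
    PW (nm f) (nm g) := by
  classical
  obtain ⟨H, K, hH, hK, h⟩ := h
  have key : ∀ p, (nm f p).Nonempty → ∃ r ∈ K p, (nm g r).Nonempty ∧
      ∀ s ∈ nm g r, ∃ t ∈ H (interleave p s), t ∈ nm f p := by
    intro p hp
    let G : (ℕ → ℕ) →. (ℕ → ℕ) := fun r => ⟨(nm g r).Nonempty, fun h => h.some⟩
    have hG : Realizes g G := realizes_iff.2 fun r hr => ⟨hr.some, ⟨hr, rfl⟩, hr.some_mem⟩
    obtain ⟨q, hq, -⟩ := realizes_iff.1 (h G hG) p hp
    simp only [Part.mem_bind_iff] at hq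
    obtain ⟨r, hr, s0, hs0, -⟩ := hq
    refine ⟨r, hr, hs0.1, fun s hs => ?_⟩
    have hG' : Realizes g (Function.update G r (Part.some s)) := realizes_iff.2 fun r' hr' => by
      by_cases h : r' = r
      · subst h
        exact ⟨s, by simp, hs⟩
      · rw [Function.update_of_ne h]
        exact realizes_iff.1 hG r' hr'
    obtain ⟨t, ht, ht'⟩ := realizes_iff.1 (h _ hG') p hp
    simp only [Part.mem_bind_iff] at ht
    obtain ⟨r', hr', s', hs', ht⟩ := ht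
    obtain rfl := Part.mem_unique hr hr'
    rw [Function.update_self, Part.mem_some_iff] at hs'
    subst hs'
    exact ⟨t, ht, ht'⟩
  choose! K' k1 k2 H' h1 h2 using key
  refine ⟨K', H', fun p hp => ⟨k2 p hp, h2 p hp⟩, fun p hp n => ?_, fun p hp s hs n => ?_⟩
  · obtain ⟨m, hm⟩ := hK.cont p _ (k1 p hp) n
    exact ⟨m, fun p' hp' h => hm p' _ (k1 p' hp') h⟩
  · obtain ⟨m, hm⟩ := hH.cont _ _ (h1 p hp s hs) n
    exact ⟨m, fun p' hp' s' hs' h h' => hm _ _ (h1 p' hp' s' hs') (pair_ag h h')⟩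

/-- The closed set named by `r`. -/
def cl {α : Type} [Encodable α] (r : ℕ → ℕ) : Set (ℕ → α) :=
  {x | ∀ (n : ℕ) (σ : List α), r n = Encodable.encode σ + 1 → (List.range σ.length).map x ≠ σ}

theorem names_cl {α : Type} [TopologicalSpace α] [Encodable α] {r : ℕ → ℕ}
    {A : TopologicalSpace.Closeds (ℕ → α)} :
    (closedRep α).names r A ↔ (A : Set (ℕ → α)) = cl r := by
  change (A : Set (ℕ → α))ᶜ = _ ↔ _
  rw [← compl_inj_iff, compl_compl]
  refine Eq.congr_right ?_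
  ext x
  simp only [cl, mem_compl_iff, mem_iUnion, mem_ofPred_eq, exists_prop, not_exists, not_and]
  exact ⟨fun h n σ hn => h σ ⟨n, hn⟩, fun h σ ⟨n, hn⟩ => h n σ hn⟩

theorem cl_stable {α : Type} [Encodable α] {r : ℕ → ℕ} {x : ℕ → α} (hx : x ∉ cl r) :
    ∃ m, ∀ r' x', Ag m r r' → Ag m x x' → x' ∉ cl r' := by
  simp only [cl, mem_ofPred_eq, not_forall, not_not] at hx
  obtain ⟨n, σ, h1, h2⟩ := hx
  refine ⟨max (n + 1) σ.length, fun r' x' h3 h4 h5 => h5 n σ (h3 n (by omega) ▸ h1) ?_⟩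
  exact ((range_map_eq_iff _ _ _).2 (h4.mono (le_max_right _ _))).symm.trans h2

theorem isClosed_cl {α : Type} [TopologicalSpace α] [DiscreteTopology α] [Encodable α]
    (r : ℕ → ℕ) : IsClosed (cl r : Set (ℕ → α)) := by
  rw [← isOpen_compl_iff, isOpen_iff_mem_nhds]
  intro x hx
  obtain ⟨m, hm⟩ := cl_stable hx
  have : (⋂ i ∈ Finset.range m, {x' : ℕ → α | x' i = x i}) ∈ nhds x := by
    refine (Filter.biInter_finset_mem _).2 fun i _ => ?_
    exact (continuous_apply i).continuousAt.preimage_mem_nhds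
      (t := {x i}) ((isOpen_discrete _).mem_nhds rfl)
  refine Filter.mem_of_superset this fun x' hx' => hm r x' (Ag.refl _ _) fun i hi => ?_
  simp only [Finset.mem_range, mem_iInter, mem_ofPred_eq] at hx'
  exact (hx' i hi).symm

theorem nm_listing_countable {r : ℕ → ℕ} (h : (nm listing r).Nonempty) :
    (cl r : Set (ℕ → Bool)).Countable := by
  obtain ⟨A, hA, L, hL, -⟩ := nm_nonempty.1 h
  exact names_cl.1 hA ▸ hL

theorem mem_nm_listing {r : ℕ → ℕ} {s : ℕ → Bool} (hc : (cl r : Set (ℕ → Bool)).Countable)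
    (hs : Lists (cl r) s) : (fun n => (s n).toNat) ∈ nm listing r := by
  refine ⟨⟨cl r, isClosed_cl r⟩, names_cl.2 rfl, fun i => (s (Nat.pair i 0), ent s i),
    ⟨hc, ?_⟩, fun i => ⟨rfl, fun j => rfl⟩⟩
  ext x
  constructor
  · exact fun hx => hs.2 x hx
  · rintro ⟨i, h1, rfl⟩
    exact hs.1 i h1

theorem mem_nm_uc {r : ℕ → ℕ} {x s : ℕ → ℕ} (h : cl r = {x}) : s ∈ nm uniqueChoice r ↔ s = x := by
  constructor
  · rintro ⟨A, hA, y, hy, rfl⟩
    have h1 := names_cl.1 hA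
    have h2 : _ = ({s} : Set (ℕ → ℕ)) := hy
    rw [h1, h] at h2
    exact (singleton_injective h2).symm
  · rintro rfl
    exact ⟨⟨cl r, isClosed_cl r⟩, names_cl.2 rfl, s, h, rfl⟩

theorem nm_comp {X Y Z : Rep} {f : Problem Y Z} {g : Problem X Y} {p : ℕ → ℕ}
    (h : (nm (comp f g) p).Nonempty) : (nm g p).Nonempty ∧
      ∀ s ∈ nm g p, (nm f s).Nonempty ∧ ∀ t ∈ nm f s, t ∈ nm (comp f g) p := by
  obtain ⟨x, hx, z, h1, y, h2, h3⟩ := nm_nonempty.1 h
  refine ⟨nm_nonempty.2 ⟨x, hx, y, h2⟩, ?_⟩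
  rintro s ⟨x', hx', y', hy', hs⟩
  obtain rfl := X.unique p x x' hx hx'
  refine ⟨nm_nonempty.2 ⟨y', hs, h1 y' hy'⟩, ?_⟩
  rintro t ⟨y'', h4, z', h5, h6⟩
  obtain rfl := Y.unique s y' y'' hs h4
  exact ⟨x, hx, z', ⟨h1, y', hy', h5⟩, h6⟩

open Classical in
/-- One plus the least zero of `b`, or `0` if there is none. -/
noncomputable def srch (b : ℕ → ℕ) : ℕ := if h : ∃ k, b k = 0 then Nat.find h + 1 else 0

theorem srch_eq_zero {b : ℕ → ℕ} : srch b = 0 ↔ ∀ k, b k ≠ 0 := by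
  unfold srch
  split_ifs with h
  · simpa using h
  · simpa using h

theorem srch_eq_succ {b : ℕ → ℕ} {k : ℕ} : srch b = k + 1 ↔ b k = 0 ∧ ∀ j < k, b j ≠ 0 := by
  classical
  unfold srch
  split_ifs with h
  · rw [add_left_inj, Nat.find_eq_iff]
  · simp only [false_iff, not_and]
    exact fun h' => absurd ⟨k, h'⟩ h

theorem srch_stable {b : ℕ → ℕ} {y : ℕ} (h : y ≠ srch b) :
    ∃ m, ∀ b', Ag m b b' → y ≠ srch b' := by
  rcases hb : srch b with _ | k
  · rcases y with _ | y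
    · exact absurd hb.symm h
    · refine ⟨y + 1, fun b' hb' h' => srch_eq_zero.1 hb y ?_⟩
      rw [hb' y (by omega)]
      exact (srch_eq_succ.1 h'.symm).1
  · refine ⟨k + 1, fun b' hb' h' => h (h'.trans ?_)⟩
    rw [hb, srch_eq_succ]
    obtain ⟨h1, h2⟩ := srch_eq_succ.1 hb
    exact ⟨hb' k (by omega) ▸ h1, fun j hj => hb' j (by omega) ▸ h2 j hj⟩

/-- The defining conditions of the Skolem data for the diagonal set. -/
def Sk (p g : ℕ → ℕ) : Prop :=
  (∀ i j : ℕ, g (2 * Nat.pair i j + 2) =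
    srch fun k => p (Encodable.encode (i, j, (List.range k).map p))) ∧
  (∀ i, g (2 * i + 1) = srch fun j => g (2 * Nat.pair i j + 2)) ∧
  g 0 = srch fun i => g (2 * i + 1)

theorem Sk.diag_iff {p g : ℕ → ℕ} (h : Sk p g) : g 0 = 0 ↔ p ∈ diag := by
  obtain ⟨h1, h2, h3⟩ := h
  rw [h3, srch_eq_zero]
  refine forall_congr' fun i => ?_
  rw [h2, Ne, srch_eq_zero]
  simp only [not_forall, not_not]
  refine exists_congr fun j => ?_
  rw [h1, srch_eq_zero]

theorem Sk.unique {p g g' : ℕ → ℕ} (h : Sk p g) (h' : Sk p g') : g = g' := by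
  have e1 : ∀ i j, g (2 * Nat.pair i j + 2) = g' (2 * Nat.pair i j + 2) :=
    fun i j => (h.1 i j).trans (h'.1 i j).symm
  have e2 : ∀ i, g (2 * i + 1) = g' (2 * i + 1) := fun i => by
    rw [h.2.1, h'.2.1]
    simp only [e1]
  have e3 : g 0 = g' 0 := by
    rw [h.2.2, h'.2.2]
    simp only [e2]
  funext n
  rcases n with _ | n
  · exact e3
  rcases Nat.even_or_odd' n with ⟨i, rfl | rfl⟩
  · exact e2 i
  · have := e1 i.unpair.1 i.unpair.2
    rwa [Nat.pair_unpair] at this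

theorem Sk.exists (p : ℕ → ℕ) : ∃ g, Sk p g := by
  let u : ℕ → ℕ → ℕ := fun i j => srch fun k => p (Encodable.encode (i, j, (List.range k).map p))
  let v : ℕ → ℕ := fun i => srch fun j => u i j
  let g : ℕ → ℕ := fun n => if n = 0 then srch v else if n % 2 = 1 then v (n / 2) else
    u (n / 2 - 1).unpair.1 (n / 2 - 1).unpair.2
  have e1 : ∀ i j, g (2 * Nat.pair i j + 2) = u i j := fun i j => by
    have h1 : (2 * Nat.pair i j + 2) / 2 - 1 = Nat.pair i j := by omega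
    have h2 : ¬ (2 * Nat.pair i j + 2) % 2 = 1 := by omega
    simp only [g, h1, if_neg h2, Nat.unpair_pair]
    simp
  have e2 : ∀ i, g (2 * i + 1) = v i := fun i => by
    have h1 : (2 * i + 1) / 2 = i := by omega
    have h2 : (2 * i + 1) % 2 = 1 := by omega
    simp only [g, h1, if_pos h2]
    simp
  refine ⟨g, e1, fun i => ?_, ?_⟩
  · simp only [e1, e2]
    rfl
  · simp only [e2]
    rfl

theorem ag_comp (φ : ℕ → ℕ) (m : ℕ) : ∃ M, ∀ g g' : ℕ → ℕ, Ag M g g' →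
    Ag m (fun j => g (φ j)) (fun j => g' (φ j)) :=
  ⟨(Finset.range m).sup φ + 1, fun _ _ h j hj =>
    h _ (Nat.lt_succ_of_le (Finset.le_sup (f := φ) (Finset.mem_range.2 hj)))⟩

theorem Sk.stable {p g : ℕ → ℕ} (h : ¬ Sk p g) :
    ∃ m, ∀ p' g', Ag m p p' → Ag m g g' → ¬ Sk p' g' := by
  simp only [Sk, not_and_or, not_forall] at h
  rcases h with ⟨i, j, h⟩ | ⟨i, h⟩ | h
  · obtain ⟨m, hm⟩ := srch_stable h
    obtain ⟨M, hM⟩ := ag_comp (fun k => Encodable.encode (i, j, (List.range k).map p)) m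
    refine ⟨max (max M m) (2 * Nat.pair i j + 3), fun p' g' h1 h2 h3 => hm _ ?_
      ((h2 _ (by omega)).trans (h3.1 i j))⟩
    intro k hk
    have : (List.range k).map p = (List.range k).map p' :=
      (range_map_eq_iff _ _ _).2 (h1.mono (by omega))
    simp only [← this]
    exact hM p p' (h1.mono (by omega)) k hk
  · obtain ⟨m, hm⟩ := srch_stable h
    obtain ⟨M, hM⟩ := ag_comp (fun j => 2 * Nat.pair i j + 2) m
    exact ⟨max M (2 * i + 2), fun p' g' _ h2 h3 => hm _ (hM g g' (h2.mono (by omega)))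
      ((h2 _ (by omega)).trans (h3.2.1 i))⟩
  · obtain ⟨m, hm⟩ := srch_stable h
    obtain ⟨M, hM⟩ := ag_comp (fun j => 2 * j + 1) m
    exact ⟨max M 1, fun p' g' _ h2 h3 => hm _ (hM g g' (h2.mono (by omega)))
      ((h2 _ (by omega)).trans h3.2.2)⟩

/-- The characteristic function of the diagonal set, as a name-level problem. -/
def chi (p : ℕ → ℕ) : Set (ℕ → ℕ) := {q | q 0 = 0 ↔ p ∈ diag}

theorem chi_nonempty (p : ℕ → ℕ) : (chi p).Nonempty := by
  obtain ⟨g, hg⟩ := Sk.exists p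
  exact ⟨g, hg.diag_iff⟩

theorem chi_le_uc : PW chi (nm uniqueChoice) := by
  classical
  let K : (ℕ → ℕ) → ℕ → ℕ := fun p n => if ∃ σ : List ℕ, n.unpair.2 = Encodable.encode σ ∧
    ∀ p' g', Ag n.unpair.1 p p' → (List.range σ.length).map g' = σ → ¬ Sk p' g'
    then n.unpair.2 + 1 else 0
  have hK : ∀ p g, Sk p g → cl (K p) = {g} := by
    intro p g hg
    ext x
    constructor
    · intro hx
      by_contra hne
      have : ¬ Sk p x := fun h => hne (h.unique hg)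
      obtain ⟨m, hm⟩ := Sk.stable this
      refine hx (Nat.pair m (Encodable.encode ((List.range m).map x))) ((List.range m).map x)
        ?_ (by simp)
      simp only [K, Nat.unpair_pair]
      rw [if_pos]
      refine ⟨_, rfl, fun p' g' h1 h2 => hm p' g' h1 ?_⟩
      simp only [List.length_map, List.length_range] at h2
      exact Ag.symm ((range_map_eq_iff _ _ _).1 h2)
    · rintro rfl n σ h1 h2
      simp only [K] at h1
      split_ifs at h1 with h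
      obtain ⟨τ, h3, h4⟩ := h
      have : σ = τ := Encodable.encode_injective (by omega)
      subst this
      exact h4 p x (Ag.refl _ _) h2 hg
  refine ⟨K, fun _ s => s, fun p _ => ?_, fun p _ n => ⟨n, fun p' _ h i hi => ?_⟩,
    fun p _ s _ n => ⟨n, fun _ _ _ _ _ h => h⟩⟩
  · obtain ⟨g, hg⟩ := Sk.exists p
    refine ⟨⟨g, (mem_nm_uc (hK p g hg)).2 rfl⟩, fun s hs => ?_⟩
    rw [(mem_nm_uc (hK p g hg)).1 hs]
    exact hg.diag_iff
  · have h1 : Ag i.unpair.1 p p' := h.mono ((Nat.unpair_left_le i).trans hi.le)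
    simp only [K]
    refine if_congr (exists_congr fun σ => and_congr_right fun _ => ?_) rfl rfl
    exact ⟨fun h2 p'' g' h3 => h2 p'' g' (h1.trans h3),
      fun h2 p'' g' h3 => h2 p'' g' (h1.symm.trans h3)⟩

theorem toNat_ag {m : ℕ} {s s' : ℕ → Bool} (h : Ag m s s') :
    Ag m (fun n => (s n).toNat) (fun n => (s' n).toNat) := fun i hi => by simp only [h i hi]

theorem not_pw {X Y Z : Rep} {f : Problem Y Z} {g : Problem X Y} (hf : PW (nm f) (nm listing))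
    (hg : PW (nm g) (nm listing)) (h : PW (nm uniqueChoice) (nm (comp f g))) : False := by
  obtain ⟨K0, H0, a1, a2, a3⟩ := chi_le_uc.trans h
  obtain ⟨K1, H1, b1, b2, b3⟩ := hg
  obtain ⟨K2, H2, c1, c2, c3⟩ := hf
  have e0 : ∀ p, (nm (comp f g) (K0 p)).Nonempty := fun p => (a1 p (chi_nonempty p)).1
  have e1 : ∀ p, (nm g (K0 p)).Nonempty := fun p => (nm_comp (e0 p)).1
  have hAc : ∀ p, (cl (K1 (K0 p)) : Set (ℕ → Bool)).Countable :=
    fun p => nm_listing_countable (b1 _ (e1 p)).1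
  have e2 : ∀ p s, Lists (cl (K1 (K0 p))) s → H1 (K0 p) (fun n => (s n).toNat) ∈ nm g (K0 p) :=
    fun p s hs => (b1 _ (e1 p)).2 _ (mem_nm_listing (hAc p) hs)
  have e3 : ∀ p s, Lists (cl (K1 (K0 p))) s → (nm f (H1 (K0 p) fun n => (s n).toNat)).Nonempty :=
    fun p s hs => ((nm_comp (e0 p)).2 _ (e2 p s hs)).1
  have hBc : ∀ p s, Lists (cl (K1 (K0 p))) s →
      (cl (K2 (H1 (K0 p) fun n => (s n).toNat)) : Set (ℕ → Bool)).Countable :=
    fun p s hs => nm_listing_countable (c1 _ (e3 p s hs)).1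
  have e4 : ∀ p s t, Lists (cl (K1 (K0 p))) s →
      Lists (cl (K2 (H1 (K0 p) fun n => (s n).toNat))) t →
      H2 (H1 (K0 p) fun n => (s n).toNat) (fun n => (t n).toNat) ∈ nm (comp f g) (K0 p) :=
    fun p s t hs ht => ((nm_comp (e0 p)).2 _ (e2 p s hs)).2 _
      ((c1 _ (e3 p s hs)).2 _ (mem_nm_listing (hBc p s hs) ht))
  have cY : ∀ p s, Lists (cl (K1 (K0 p))) s → ∀ n, ∃ m, ∀ p' s', Lists (cl (K1 (K0 p'))) s' →
      Ag m p p' → Ag m s s' →
      Ag n (H1 (K0 p) fun n => (s n).toNat) (H1 (K0 p') fun n => (s' n).toNat) := by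
    intro p s hs n
    obtain ⟨m1, hm1⟩ := b3 _ (e1 p) _ (mem_nm_listing (hAc p) hs) n
    obtain ⟨m2, hm2⟩ := a2 p (chi_nonempty p) m1
    exact ⟨max m1 m2, fun p' s' hs' h1 h2 => hm1 _ (e1 p') _ (mem_nm_listing (hAc p') hs')
      (hm2 p' (chi_nonempty p') (h1.mono (le_max_right _ _)))
      (toNat_ag (h2.mono (le_max_left _ _)))⟩
  obtain ⟨O, hO, hO'⟩ := sigma3 (A := fun p => cl (K1 (K0 p)))
    (B := fun p s => cl (K2 (H1 (K0 p) fun n => (s n).toNat))) (D := diag) hAc hBc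
    (fun p x hx => by
      obtain ⟨m1, hm1⟩ := cl_stable hx
      obtain ⟨m2, hm2⟩ := b2 _ (e1 p) m1
      obtain ⟨m3, hm3⟩ := a2 p (chi_nonempty p) m2
      exact ⟨max m1 m3, fun p' x' h1 h2 => hm1 _ _ (hm2 _ (e1 p')
        (hm3 p' (chi_nonempty p') (h1.mono (le_max_right _ _)))) (h2.mono (le_max_left _ _))⟩)
    (fun p s hs x hx => by
      obtain ⟨m1, hm1⟩ := cl_stable hx
      obtain ⟨m2, hm2⟩ := c2 _ (e3 p s hs) m1
      obtain ⟨m3, hm3⟩ := cY p s hs m2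
      exact ⟨max m1 m3, fun p' s' x' hs' h1 h2 h3 => hm1 _ _ (hm2 _ (e3 p' s' hs')
        (hm3 p' s' hs' (h1.mono (le_max_right _ _)) (h2.mono (le_max_right _ _))))
        (h3.mono (le_max_left _ _))⟩)
    (fun p s t hs ht hp => by
      obtain ⟨m1, hm1⟩ := a3 p (chi_nonempty p) _ (e4 p s t hs ht) 1
      obtain ⟨m2, hm2⟩ := c3 _ (e3 p s hs) _ (mem_nm_listing (hBc p s hs) ht) m1
      obtain ⟨m3, hm3⟩ := cY p s hs m2
      refine ⟨max m1 (max m2 m3), fun p' s' t' hs' ht' h1 h2 h3 => ?_⟩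
      have h4 := hm1 p' (chi_nonempty p') _ (e4 p' s' t' hs' ht') (h1.mono (by omega))
        (hm2 _ (e3 p' s' hs') _ (mem_nm_listing (hBc p' s' hs') ht')
          (hm3 p' s' hs' (h1.mono (by omega)) (h2.mono (by omega))) (toNat_ag (h3.mono (by omega))))
        0 Nat.one_pos
      have h5 := (a1 p (chi_nonempty p)).2 _ (e4 p s t hs ht)
      have h6 := (a1 p' (chi_nonempty p')).2 _ (e4 p' s' t' hs' ht')
      exact h6.1 (h4 ▸ h5.2 hp))
  exact diag_not_sigma3 O hO hO'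

theorem main {X Y : Rep} (h : Problem X Y)
    (hh : ∃ (U V W : Rep) (f₀ : Problem V W) (g₀ : Problem U V),
      WLe f₀ listing ∧ WLe g₀ listing ∧ WLe h (comp f₀ g₀)) : ¬ WLe uniqueChoice h := by
  obtain ⟨U, V, W, f, g, h1, h2, h3⟩ := hh
  exact fun h4 => not_pw h1.pw h2.pw (h4.pw.trans h3.pw)

end Pool.Agent.P.MP_b67dab_lc
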